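import Pool.Agent.Y756.T.Main5

set_option autoImplicit false

/-!
An explicit unconditional lower bound of the conjectured order for the fifth moment of zeta on the
critical line, i.e. the case `k = 5` of the problem.
-/

open Filter

theorem Pool.Agent.Results.MP_91b7ff_nt.FifthMomentLower.result :
    ∀ᶠ T : ℝ in atTop,
      337 / 100 * (∏' p : Nat.Primes, ((1 - 1 / (p : ℝ)) ^ ((25 : ℝ) / 4) *
          ∑' m : ℕ, (∏ i ∈ Finset.range m, ((5 : ℝ) / 2 + i) / ((i : ℝ) + 1)) ^ 2 *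
            (1 / (p : ℝ)) ^ m)) / Real.Gamma (29 / 4) * (T * Real.log T ^ ((25 : ℝ) / 4)) ≤
        ∫ t in (0:ℝ)..T, ‖riemannZeta (1 / 2 + t * Complex.I)‖ ^ 5 := by
  have e : Pool.Agent.H306R2.aF (5 / 2) =
      ∏' p : Nat.Primes, ((1 - 1 / (p : ℝ)) ^ ((25 : ℝ) / 4) *
          ∑' m : ℕ, (∏ i ∈ Finset.range m, ((5 : ℝ) / 2 + i) / ((i : ℝ) + 1)) ^ 2 *
            (1 / (p : ℝ)) ^ m) := by
    unfold Pool.Agent.H306R2.aF Pool.Agent.H306R2.lc
    rw [show (5 / 2 : ℝ) ^ 2 = 25 / 4 by norm_num]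
  filter_upwards [Pool.Agent.Y756.T.main5] with T hT
  rw [← e]
  refine le_trans (le_of_eq ?_) hT
  ring
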