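import Pool.Agent.Y756.FirstN

set_option autoImplicit false

/-!
Explicit two-sided bounds of the conjectured order for the first moment of zeta on the
critical line, i.e. the case `k = 1` of the problem.
-/

open Filter

theorem Pool.Agent.Results.MP_91b7ff_nt.FirstMomentBounds.result :
    ∀ᶠ T : ℝ in atTop,
      583 / 1000 * (∏' p : Nat.Primes, ((1 - 1 / (p : ℝ)) ^ ((1 : ℝ) / 4) *
          ∑' m : ℕ, (∏ i ∈ Finset.range m, ((1 : ℝ) / 2 + i) / ((i : ℝ) + 1)) ^ 2 *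
            (1 / (p : ℝ)) ^ m)) / Real.Gamma (5 / 4) * (T * Real.log T ^ ((1 : ℝ) / 4)) ≤
        ∫ t in (0:ℝ)..T, ‖riemannZeta (1 / 2 + t * Complex.I)‖ ∧
      ∫ t in (0:ℝ)..T, ‖riemannZeta (1 / 2 + t * Complex.I)‖ ≤
        2139 / 1000 * (∏' p : Nat.Primes, ((1 - 1 / (p : ℝ)) ^ ((1 : ℝ) / 4) *
          ∑' m : ℕ, (∏ i ∈ Finset.range m, ((1 : ℝ) / 2 + i) / ((i : ℝ) + 1)) ^ 2 *
            (1 / (p : ℝ)) ^ m)) / Real.Gamma (5 / 4) * (T * Real.log T ^ ((1 : ℝ) / 4)) := by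
  have e : Pool.Agent.H306R2.aF (1 / ((2:ℕ):ℝ)) =
      ∏' p : Nat.Primes, ((1 - 1 / (p : ℝ)) ^ ((1 : ℝ) / 4) *
          ∑' m : ℕ, (∏ i ∈ Finset.range m, ((1 : ℝ) / 2 + i) / ((i : ℝ) + 1)) ^ 2 *
            (1 / (p : ℝ)) ^ m) := by
    unfold Pool.Agent.H306R2.aF Pool.Agent.H306R2.lc
    rw [show (1 / ((2:ℕ):ℝ)) ^ 2 = 1 / 4 by norm_num, show 1 / ((2:ℕ):ℝ) = 1 / 2 by norm_num]
  have eA : Pool.Agent.Y756.A1 = (∏' p : Nat.Primes, ((1 - 1 / (p : ℝ)) ^ ((1 : ℝ) / 4) *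
          ∑' m : ℕ, (∏ i ∈ Finset.range m, ((1 : ℝ) / 2 + i) / ((i : ℝ) + 1)) ^ 2 *
            (1 / (p : ℝ)) ^ m)) / Real.Gamma (5 / 4) := by
    unfold Pool.Agent.Y756.A1
    rw [e, show (1 / ((2:ℕ):ℝ)) ^ 2 + 1 = 5 / 4 by norm_num]
  have eM : ∀ T : ℝ, Pool.Agent.W184.MM 2 T = T * Real.log T ^ ((1 : ℝ) / 4) := by
    intro T
    unfold Pool.Agent.W184.MM
    rw [show (1 / ((2:ℕ):ℝ)) ^ 2 = 1 / 4 by norm_num]
  have eZ : ∀ t : ℝ, Pool.Agent.W184.zn (1 / 2) t ^ (2 / ((2:ℕ):ℝ)) =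
      ‖riemannZeta (1 / 2 + t * Complex.I)‖ := by
    intro t
    unfold Pool.Agent.W184.zn
    rw [show 2 / ((2:ℕ):ℝ) = 1 by norm_num, Real.rpow_one]
    norm_num
  filter_upwards [Pool.Agent.Y756.first_lo, Pool.Agent.Y756.first_up] with T h1 h2
  simp only [eZ, eM, eA] at h1 h2
  rw [mul_div_assoc, mul_div_assoc]
  exact ⟨h1, h2⟩
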