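import Pool.Agent.Y752.LP.Ex

set_option autoImplicit false

/-!
# Mean values of zeta along linear patterns
-/

namespace Pool.Agent.Results.MP_91b7ff_nt.LinearPatterns

open MeasureTheory Set Filter Asymptotics

noncomputable section

variable {m d : ℕ}

/-- The tuples of reduced fractions `a_i / b_i > 0` with `∏ i, (a_i / b_i) ^ ψ_il = 1` for every
coordinate `l`. A fraction is stored as the pair of its numerator and denominator. -/
def relations (ψ : Fin m → Fin d → ℤ) : Set (Fin m → ℕ × ℕ) :=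
  {q | (∀ i, 0 < (q i).1 ∧ 0 < (q i).2 ∧ (q i).1.Coprime (q i).2) ∧
    ∀ l, ∏ i, (((q i).1 : ℝ) / (q i).2) ^ ψ i l = 1}

/-- The weight `∏ i, (a_i b_i) ^ (-1/2)`. -/
def weight (q : Fin m → ℕ × ℕ) : ℝ := ∏ i, (Real.sqrt ((q i).1 * (q i).2))⁻¹

/-- The integral over the cube `[0, T] ^ d` of `∏ i, |ζ(1/2 + i ψ_i(x))| ^ 2`. -/
def cubeIntegral (ψ : Fin m → Fin d → ℤ) (T : ℝ) : ℝ :=
  ∫ x in Icc (0 : Fin d → ℝ) (fun _ => T),
    ∏ i, ‖riemannZeta (1 / 2 + Complex.I * ∑ l, (ψ i l : ℂ) * (x l : ℂ))‖ ^ 2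

/-- Asymptotic expansions with a power saving for mean values along linear patterns; the cases of
three terms in arithmetic progression and of parallelograms. -/
theorem result :
    (∀ (m d : ℕ) (ψ : Fin m → Fin d → ℤ),
      (∀ i, ∃ A B : Finset (Fin m), (∀ j, j = i ∨ j ∈ A ∨ j ∈ B) ∧
        LinearIndepOn ℝ (fun j l => (ψ j l : ℝ)) (insert i A : Set (Fin m)) ∧
        LinearIndepOn ℝ (fun j l => (ψ j l : ℝ)) (insert i B : Set (Fin m))) →
      ∃ P : Polynomial ℝ, P.natDegree = m ∧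
        (Summable fun q : relations ψ => weight q.1) ∧
        P.leadingCoeff = ∑' q : relations ψ, weight q.1 ∧
        (∀ X : ℝ, P.eval X = ∑' q : relations ψ, weight q.1 *
          ∫ y in Icc (0 : Fin d → ℝ) (fun _ => 1), ∏ i, (X + Real.log |∑ l, (ψ i l : ℝ) * y l| -
            Real.log (2 * Real.pi * (q.1 i).1 * (q.1 i).2) + 2 * Real.eulerMascheroniConstant)) ∧
        ∃ κ : ℝ, 0 < κ ∧
          (fun T : ℝ => cubeIntegral ψ T - T ^ d * P.eval (Real.log T)) =O[atTop]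
            fun T : ℝ => T ^ ((d : ℝ) - κ)) ∧
    Tendsto (fun T : ℝ => (∫ x in Icc (0 : Fin 2 → ℝ) (fun _ => T),
      ‖riemannZeta (1 / 2 + Complex.I * x 0)‖ ^ 2 *
      ‖riemannZeta (1 / 2 + Complex.I * (x 0 + x 1))‖ ^ 2 *
      ‖riemannZeta (1 / 2 + Complex.I * (x 0 + 2 * x 1))‖ ^ 2) /
      (T ^ 2 * Real.log T ^ 3)) atTop (nhds (5 / 2)) ∧
    Tendsto (fun T : ℝ => (∫ x in Icc (0 : Fin 3 → ℝ) (fun _ => T),
      ‖riemannZeta (1 / 2 + Complex.I * x 0)‖ ^ 2 *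
      ‖riemannZeta (1 / 2 + Complex.I * (x 0 + x 1))‖ ^ 2 *
      ‖riemannZeta (1 / 2 + Complex.I * (x 0 + x 2))‖ ^ 2 *
      ‖riemannZeta (1 / 2 + Complex.I * (x 0 + x 1 + x 2))‖ ^ 2) /
      (T ^ 3 * Real.log T ^ 4)) atTop (nhds (5 / 2)) :=
  ⟨fun _ _ ψ hψ => Pool.Agent.Y752.LP.std ψ hψ, Pool.Agent.Y752.LP.ap3, Pool.Agent.Y752.LP.par4⟩

end

end Pool.Agent.Results.MP_91b7ff_nt.LinearPatterns
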