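import Pool.Agent.Y746.OA.FinA
import Pool.Agent.Y746.OA.LD

set_option autoImplicit false

/-! Truncated moments of all orders of the zeta function near the critical line. -/

namespace Pool.Agent.Results.MP_91b7ff_nt.TruncatedOrders

open Filter MeasureTheory

/-- `∑ d_{β/2}(n)^2 n^{-1-2δ}`, where `dv α` is the generalised divisor function `d_α` -/
noncomputable def S (β δ : ℝ) : ℝ := ∑' n : ℕ, Pool.Agent.H306R2.dv (β / 2) n ^ 2 * (n:ℝ) ^ (-(1 + 2 * δ))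

lemma S_eq (β δ : ℝ) : S β δ = Pool.Agent.Y746.OA.SS (β / 2) δ := by
  unfold S Pool.Agent.Y746.OA.SS
  refine tsum_congr fun n => ?_
  congr 2; ring

lemma sp_eq (δ t : ℝ) : (1 / 2 + (δ : ℂ) + (t : ℂ) * Complex.I) = Pool.Agent.Y746.OA.sp δ t := by
  unfold Pool.Agent.Y746.OA.sp
  push_cast; ring

/-- Near the critical line the moments of every real order obey the predicted asymptotics after truncation. -/
theorem result :
    -- (1) all real orders `β`, with `|ζ|` truncated to `[1/V, V]`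
    (∀ β : ℝ, ∃ c : ℝ, 0 < c ∧ ∀ B : ℕ, ∃ (A : ℕ) (C T₀ : ℝ), ∀ T : ℝ, T₀ ≤ T → ∀ δ : ℝ,
      C * Real.log (Real.log T) / Real.log T ≤ δ → δ ≤ 1 / 16 → ∀ V : ℝ, Real.log T ^ A ≤ V → V ≤ T ^ (c * δ) →
      |1 / T * (∫ t in (0:ℝ)..T, max V⁻¹ (min ‖riemannZeta (1 / 2 + δ + t * Complex.I)‖ V) ^ β) - S β δ| ≤
        S β δ / Real.log T ^ B) ∧
    -- (2) all positive orders, with `|ζ|` truncated above only
    (∀ β : ℝ, 0 < β → ∃ c : ℝ, 0 < c ∧ ∀ B : ℕ, ∃ (A : ℕ) (C T₀ : ℝ), ∀ T : ℝ, T₀ ≤ T → ∀ δ : ℝ,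
      C * Real.log (Real.log T) / Real.log T ≤ δ → δ ≤ 1 / 16 → ∀ V : ℝ, Real.log T ^ A ≤ V → V ≤ T ^ (c * δ) →
      |1 / T * (∫ t in (0:ℝ)..T, min ‖riemannZeta (1 / 2 + δ + t * Complex.I)‖ V ^ β) - S β δ| ≤
        S β δ / Real.log T ^ B) ∧
    -- (3) lower bounds for the complete moments
    (∀ β : ℝ, 0 < β → ∀ B : ℕ, ∃ C T₀ : ℝ, ∀ T : ℝ, T₀ ≤ T → ∀ δ : ℝ,
      C * Real.log (Real.log T) / Real.log T ≤ δ → δ ≤ 1 / 16 →
      S β δ * (1 - 1 / Real.log T ^ B) ≤ 1 / T * ∫ t in (0:ℝ)..T, ‖riemannZeta (1 / 2 + δ + t * Complex.I)‖ ^ β) ∧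
    -- (4) limits along `δ(T) → 0`
    (∀ β : ℝ, 0 < β → ∃ A₀ : ℕ, ∀ A : ℕ, A₀ ≤ A → ∀ δ : ℝ → ℝ, Tendsto δ atTop (nhds 0) →
      Tendsto (fun T => δ T * Real.log T / Real.log (Real.log T)) atTop atTop →
      Tendsto (fun T => (2 * δ T) ^ (β ^ 2 / 4) * (1 / T * ∫ t in (0:ℝ)..T,
        min ‖riemannZeta (1 / 2 + δ T + t * Complex.I)‖ (Real.log T ^ A) ^ β)) atTop
        (nhds (Pool.Agent.H306R2.aF (β / 2)))) ∧
    -- (5) large deviations of every order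
    (∀ u ε : ℝ, 0 < u → 0 < ε → ∃ C T₀ δ₀ : ℝ, 0 < δ₀ ∧ ∀ T : ℝ, T₀ ≤ T → ∀ δ : ℝ,
      C * Real.log (Real.log T) / Real.log T ≤ δ → δ ≤ δ₀ →
      T * δ ^ (u ^ 2 + ε) ≤
        volume.real {t : ℝ | t ∈ Set.Ioc 0 T ∧ δ ^ (-u) ≤ ‖riemannZeta (1 / 2 + δ + t * Complex.I)‖} ∧
      volume.real {t : ℝ | t ∈ Set.Ioc 0 T ∧ δ ^ (-u) ≤ ‖riemannZeta (1 / 2 + δ + t * Complex.I)‖} ≤
        T * δ ^ (u ^ 2 - ε)) := by
  simp_rw [sp_eq, S_eq]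
  have conv : ∀ (T I D q : ℝ), 0 < T → |I - T * D| ≤ T * D / q → |1 / T * I - D| ≤ D / q := by
    intro T I D q hT h
    have e : 1 / T * I - D = (I - T * D) / T := by field_simp
    rw [e, abs_div, abs_of_pos hT, div_le_iff₀ hT]
    refine h.trans (le_of_eq ?_)
    ring
  refine ⟨fun β => ?_, fun β hβ => ?_, fun β hβ B => ?_, fun β hβ => ?_, fun u ε hu hε => ?_⟩
  · obtain ⟨c, hc, h⟩ := Pool.Agent.Y746.OA.mainA (β / 2)
    refine ⟨c, hc, fun B => ?_⟩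
    obtain ⟨A, C, T0, hC, hm⟩ := h B
    refine ⟨A, C, max T0 1, fun T hT δ hδ hδ1 V hV1 hV2 => ?_⟩
    have hTp : 0 < T := lt_of_lt_of_le one_pos ((le_max_right _ _).trans hT)
    have h1 := hm T ((le_max_left _ _).trans hT) δ hδ hδ1 V hV1 hV2
    have e2 : 2 * (β / 2) = β := by ring
    rw [e2] at h1
    exact conv _ _ _ _ hTp h1
  · obtain ⟨c, hc, h⟩ := Pool.Agent.Y746.OA.mainP hβ
    refine ⟨c, hc, fun B => ?_⟩
    obtain ⟨A, C, T0, hC, hm⟩ := h B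
    refine ⟨A, C, max T0 1, fun T hT δ hδ hδ1 V hV1 hV2 => ?_⟩
    have hTp : 0 < T := lt_of_lt_of_le one_pos ((le_max_right _ _).trans hT)
    exact conv _ _ _ _ hTp (hm T ((le_max_left _ _).trans hT) δ hδ hδ1 V hV1 hV2)
  · obtain ⟨C, T0, hC, hm⟩ := Pool.Agent.Y746.OA.full_low hβ B
    refine ⟨C, max T0 1, fun T hT δ hδ hδ1 => ?_⟩
    have hTp : 0 < T := lt_of_lt_of_le one_pos ((le_max_right _ _).trans hT)
    have h1 := hm T ((le_max_left _ _).trans hT) δ hδ hδ1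
    rw [one_div_mul_eq_div, le_div_iff₀ hTp]
    refine le_trans (le_of_eq ?_) h1
    ring
  · exact Pool.Agent.Y746.OA.limP hβ
  · obtain ⟨C, T0, δ0, hC, hδ0, -, h⟩ := Pool.Agent.Y746.OA.LD hu hε
    exact ⟨C, T0, δ0, hδ0, h⟩

end Pool.Agent.Results.MP_91b7ff_nt.TruncatedOrders
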